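import Mathlib

/-!
# A basis of a commutative algebra all of whose structure constants are nonzero
-/

namespace Pool.Agent.V1146.AD

open Module

section

variable {κ : Type*} [Field κ] {A : Type*} [CommRing A] [Algebra κ A]

/-- An element whose square is not a multiple of it. -/
theorem exists_sq [Infinite κ] {x : A} (hx : LinearIndependent κ ![(1 : A), x]) :
    ∃ u : A, LinearIndependent κ ![u * u, u] := by
  classical
  have h1 := LinearIndependent.pair_iff.1 hx
  have hne : ∀ a : κ, x + a • (1 : A) ≠ 0 := by
    intro a h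
    have := h1 a 1 (by rw [one_smul, add_comm]; exact h)
    exact one_ne_zero this.2
  by_contra hcon
  push Not at hcon
  have key : ∀ a : κ, ∃ p : κ, p • (x + a • (1 : A)) = (x + a • (1 : A)) * (x + a • (1 : A)) := by
    intro a
    by_contra hc
    push Not at hc
    have h2 := (LinearIndependent.pair_iff' (hne a)).2 hc
    apply hcon (x + a • (1 : A))
    rw [LinearIndependent.pair_symm_iff]
    exact h2
  obtain ⟨l, hl⟩ := key 0
  simp only [zero_smul, add_zero] at hl
  obtain ⟨a, ha⟩ := Infinite.exists_notMem_finset ({0, -l} : Finset κ)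
  simp only [Finset.mem_insert, Finset.mem_singleton, not_or] at ha
  obtain ⟨p, hp⟩ := key a
  have e1 : (p * a - a ^ 2) • (1 : A) + (p - (l + 2 * a)) • x = 0 := by
    have : (x + a • (1 : A)) * (x + a • (1 : A)) = x * x + (2 * a) • x + (a ^ 2) • (1 : A) := by
      simp only [Algebra.smul_def, mul_one, map_mul, map_pow, map_ofNat]
      ring
    rw [this, ← hl] at hp
    simp only [Algebra.smul_def, mul_one, map_mul, map_pow, map_ofNat, map_sub, map_add] at hp ⊢
    linear_combination hp
  obtain ⟨e2, e3⟩ := h1 _ _ e1
  have hp' : p = l + 2 * a := sub_eq_zero.1 e3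
  rw [hp'] at e2
  have : a * (a + l) = 0 := by linear_combination e2
  rcases mul_eq_zero.1 this with h | h
  · exact ha.1 h
  · exact ha.2 (eq_neg_of_add_eq_zero_left h)

/-- Two elements whose product is independent of them. -/
theorem exists_mul {x y : A} (hx : LinearIndependent κ ![(1 : A), x, y]) :
    ∃ u v : A, LinearIndependent κ ![u * v, u, v] := by
  have h1 : ∀ r s t : κ, r • (1 : A) + s • x + t • y = 0 → r = 0 ∧ s = 0 ∧ t = 0 := by
    intro r s t h
    have := Fintype.linearIndependent_iff.1 hx ![r, s, t]
      (by simpa [Fin.sum_univ_succ, add_assoc] using h)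
    exact ⟨this 0, this 1, this 2⟩
  by_contra hcon
  push Not at hcon
  have key : ∀ a b : κ, ∃ p q : κ, p • (x + a • (1 : A)) + q • (y + b • (1 : A)) =
      (x + a • (1 : A)) * (y + b • (1 : A)) := by
    intro a b
    have hi : LinearIndependent κ ![x + a • (1 : A), y + b • (1 : A)] := by
      rw [LinearIndependent.pair_iff]
      intro s t h
      have := h1 (s * a + t * b) s t (by
        simp only [Algebra.smul_def, mul_one, map_mul, map_add] at h ⊢
        linear_combination h)
      exact this.2
    have h2 := hcon (x + a • (1 : A)) (y + b • (1 : A))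
    have h3 : (x + a • (1 : A)) * (y + b • (1 : A)) ∈
        Submodule.span κ (Set.range ![x + a • (1 : A), y + b • (1 : A)]) := by
      by_contra h3
      exact h2 (linearIndependent_finCons.2 ⟨hi, h3⟩)
    rw [Matrix.range_cons, Matrix.range_cons, Matrix.range_empty, Set.union_empty,
      Set.singleton_union, Submodule.mem_span_pair] at h3
    exact h3
  obtain ⟨α, β, h00⟩ := key 0 0
  obtain ⟨p1, q1, h10⟩ := key 1 0
  obtain ⟨p2, q2, h01⟩ := key 0 1
  obtain ⟨p3, q3, h11⟩ := key 1 1
  simp only [zero_smul, one_smul, add_zero] at h00 h10 h01 h11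
  obtain ⟨a1, a2, a3⟩ := h1 p1 (p1 - α) (q1 - β - 1) (by
    simp only [Algebra.smul_def, mul_one, map_sub, map_one] at h10 h00 ⊢
    linear_combination h10 - h00)
  obtain ⟨b1, b2, b3⟩ := h1 q2 (p2 - α - 1) (q2 - β) (by
    simp only [Algebra.smul_def, mul_one, map_sub, map_one] at h01 h00 ⊢
    linear_combination h01 - h00)
  obtain ⟨c1, c2, c3⟩ := h1 (p3 + q3 - 1) (p3 - α - 1) (q3 - β - 1) (by
    simp only [Algebra.smul_def, mul_one, map_sub, map_one, map_add] at h11 h00 ⊢
    linear_combination h11 - h00)
  have hα : α = 0 := by rw [a1] at a2; linear_combination -a2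
  have hβ : β = 0 := by rw [b1] at b3; linear_combination -b3
  rw [hα] at c2
  rw [hβ] at c3
  have : (1 : κ) = 0 := by linear_combination c1 - c2 - c3
  exact one_ne_zero this

/-- Extending an independent family to a basis. -/
theorem exists_extend {d : ℕ} [FiniteDimensional κ A] (hd : finrank κ A = d) {m : ℕ}
    (w : Fin m → A) (hw : LinearIndependent κ w) (f : Fin m → Fin d) (hf : Function.Injective f) :
    ∃ e : Basis (Fin d) κ A, ∀ i, e (f i) = w i := by
  classical
  have hli : LinearIndepOn κ id (Set.range w) := hw.linearIndepOn_id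
  let B := Basis.extend hli
  have : Fintype (hli.extend (Set.subset_univ _)) := FiniteDimensional.fintypeBasisIndex B
  have hcard : Fintype.card (hli.extend (Set.subset_univ _)) = d := by
    rw [← hd, Module.finrank_eq_card_basis B]
  -- the injection
  have hmem : ∀ i, w i ∈ hli.extend (Set.subset_univ _) := fun i =>
    hli.subset_extend _ (Set.mem_range_self i)
  let g : Fin m → hli.extend (Set.subset_univ _) := fun i => ⟨w i, hmem i⟩
  have hg : Function.Injective g := fun i j h => hw.injective (congrArg Subtype.val h)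
  obtain ⟨σ, hσ⟩ : ∃ σ : hli.extend (Set.subset_univ _) ≃ Fin d, ∀ i, σ (g i) = f i := by
    let e0 : hli.extend (Set.subset_univ _) ≃ Fin d := Fintype.equivFinOfCardEq hcard
    let p : Set.range (fun i => e0 (g i)) ≃ Set.range f :=
      (Equiv.ofInjective _ (e0.injective.comp hg)).symm.trans (Equiv.ofInjective f hf)
    let P : Fin d ≃ Fin d := Equiv.extendSubtype p
    refine ⟨e0.trans P, fun i => ?_⟩
    have h1 : P (e0 (g i)) = p ⟨e0 (g i), Set.mem_range_self i⟩ :=
      Equiv.extendSubtype_apply_of_mem p _ (Set.mem_range_self i)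
    have h2 : (Equiv.ofInjective _ (e0.injective.comp hg)).symm
        ⟨e0 (g i), Set.mem_range_self i⟩ = i :=
      Equiv.ofInjective_symm_apply (e0.injective.comp hg) i
    simp only [Equiv.trans_apply, h1, p, h2]
    rfl
  refine ⟨B.reindex σ, fun i => ?_⟩
  rw [Basis.reindex_apply, ← hσ i, Equiv.symm_apply_apply]
  simp [B, g]

/-- For each triple of indices some basis has a nonzero structure constant there. -/
theorem exists_basis_ne [Infinite κ] [FiniteDimensional κ A] {d : ℕ} (hd : finrank κ A = d)
    (i j l : Fin d) : ∃ e : Basis (Fin d) κ A, e.repr (e i * e j) l ≠ 0 := by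
  classical
  have hd0 : 0 < d := Fin.pos i
  have : Nontrivial A := by
    apply Module.nontrivial_of_finrank_pos (R := κ)
    omega
  -- the case in which one of the factors can be `1`
  have one_case : ∀ i j : Fin d, ∃ e : Basis (Fin d) κ A, e.repr (e i * e j) j ≠ 0 := by
    intro i j
    obtain ⟨e, he⟩ := exists_extend hd ![(1 : A)] (by
      rw [linearIndependent_unique_iff]
      simp) ![i] (fun a b _ => Subsingleton.elim a b)
    have h1 : e i = 1 := by simpa using he 0
    refine ⟨e, ?_⟩
    rw [h1, one_mul]
    simp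
  by_cases hlj : l = j
  · subst hlj; exact one_case i l
  by_cases hli : l = i
  · subst hli
    obtain ⟨e, he⟩ := one_case j l
    exact ⟨e, by rwa [mul_comm]⟩
  obtain ⟨b, -⟩ := exists_extend hd ![(1 : A)] (by
      rw [linearIndependent_unique_iff]
      simp) ![i] (fun a b _ => Subsingleton.elim a b)
  -- independent elements starting with one
  by_cases hij : i = j
  · subst hij
    obtain ⟨c, hc⟩ := exists_extend hd ![(1 : A)] (by
      rw [linearIndependent_unique_iff]
      simp) ![i] (fun a b _ => Subsingleton.elim a b)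
    have hx : LinearIndependent κ ![(1 : A), c l] := by
      have h1 : c i = 1 := by simpa using hc 0
      rw [← h1]
      have := c.linearIndependent.comp ![i, l] (by
        intro a b hab
        fin_cases a <;> fin_cases b <;> simp_all)
      convert this using 1
      funext a
      fin_cases a <;> rfl
    obtain ⟨u, hu⟩ := exists_sq hx
    obtain ⟨e, he⟩ := exists_extend hd _ hu ![l, i] (by
        intro a b hab
        fin_cases a <;> fin_cases b <;> simp_all)
    have h0 : e l = u * u := by simpa using he 0
    have h1 : e i = u := by simpa using he 1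
    refine ⟨e, ?_⟩
    rw [h1, ← h0]
    simp
  · obtain ⟨c, hc⟩ := exists_extend hd ![(1 : A)] (by
      rw [linearIndependent_unique_iff]
      simp) ![i] (fun a b _ => Subsingleton.elim a b)
    have hx : LinearIndependent κ ![(1 : A), c j, c l] := by
      have h1 : c i = 1 := by simpa using hc 0
      rw [← h1]
      have := c.linearIndependent.comp ![i, j, l] (by
        intro a b hab
        fin_cases a <;> fin_cases b <;> simp_all)
      convert this using 1
      funext a
      fin_cases a <;> rfl
    obtain ⟨u, v, hu⟩ := exists_mul hx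
    obtain ⟨e, he⟩ := exists_extend hd _ hu ![l, i, j] (by
        intro a b hab
        fin_cases a <;> fin_cases b <;> simp_all)
    have h0 : e l = u * v := by simpa using he 0
    have h1 : e i = u := by simpa using he 1
    have h2 : e j = v := by simpa using he 2
    refine ⟨e, ?_⟩
    rw [h1, h2, ← h0]
    simp

/-- The polynomial whose value at the matrix of a basis is the determinant times the structure
constant. -/
noncomputable def F {d : ℕ} (b : Basis (Fin d) κ A) (i j l : Fin d) :
    MvPolynomial (Fin d × Fin d) κ :=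
  ∑ c, (Matrix.mvPolynomialX (Fin d) (Fin d) κ).adjugate l c *
    ∑ a, ∑ a', MvPolynomial.X (a, i) * MvPolynomial.X (a', j) *
      MvPolynomial.C (b.repr (b a * b a') c)

theorem eval_F {d : ℕ} (b e : Basis (Fin d) κ A) (i j l : Fin d) :
    MvPolynomial.eval (fun p : Fin d × Fin d => b.toMatrix e p.1 p.2) (F b i j l) =
      (b.toMatrix e).det * e.repr (e i * e j) l := by
  classical
  have h1 : e.repr (e i * e j) = (e.toMatrix b).mulVec (b.repr (e i * e j)) := by
    rw [Basis.toMatrix_mulVec_repr]
  have h2 : (b.toMatrix e).det • e.toMatrix b = (b.toMatrix e).adjugate := by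
    have h3 : e.toMatrix b * b.toMatrix e = 1 := Basis.toMatrix_mul_toMatrix_flip e b
    have h4 : b.toMatrix e * e.toMatrix b = 1 := Basis.toMatrix_mul_toMatrix_flip b e
    calc (b.toMatrix e).det • e.toMatrix b
        = ((b.toMatrix e).det • (1 : Matrix (Fin d) (Fin d) κ)) * e.toMatrix b := by
          rw [smul_mul_assoc, one_mul]
      _ = ((b.toMatrix e).adjugate * b.toMatrix e) * e.toMatrix b := by
          rw [Matrix.adjugate_mul]
      _ = (b.toMatrix e).adjugate := by rw [mul_assoc, h4, mul_one]
  have h5 : ∀ c, b.repr (e i * e j) c =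
      ∑ a, ∑ a', b.toMatrix e a i * b.toMatrix e a' j * b.repr (b a * b a') c := by
    intro c
    have hi : e i = ∑ a, b.toMatrix e a i • b a := (b.sum_toMatrix_smul_self e i).symm
    have hj : e j = ∑ a, b.toMatrix e a j • b a := (b.sum_toMatrix_smul_self e j).symm
    conv_lhs => rw [hi, hj]
    rw [Finset.sum_mul_sum]
    simp only [map_sum, Finsupp.coe_finsetSum, Finset.sum_apply, smul_mul_smul_comm, map_smul,
      Finsupp.smul_apply, smul_eq_mul]
  have h6 : ∀ c, MvPolynomial.eval (fun p : Fin d × Fin d => b.toMatrix e p.1 p.2)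
      ((Matrix.mvPolynomialX (Fin d) (Fin d) κ).adjugate l c) = (b.toMatrix e).adjugate l c := by
    intro c
    have := congrFun (congrFun (RingHom.map_adjugate
      (MvPolynomial.eval (fun p : Fin d × Fin d => b.toMatrix e p.1 p.2))
      (Matrix.mvPolynomialX (Fin d) (Fin d) κ)) l) c
    rw [RingHom.mapMatrix_apply, Matrix.map_apply] at this
    rw [this, Matrix.mvPolynomialX_mapMatrix_eval]
  unfold F
  rw [map_sum, h1, Matrix.mulVec, dotProduct, Finset.mul_sum]
  refine Finset.sum_congr rfl fun c _ => ?_
  rw [map_mul, h6, ← h2, Matrix.smul_apply, smul_eq_mul, mul_assoc]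
  congr 2
  rw [h5]
  simp only [map_sum, map_mul, MvPolynomial.eval_X, MvPolynomial.eval_C]

/-- A commutative algebra of finite dimension over an infinite field has a basis all of whose
structure constants are nonzero. -/
theorem exists_basis_all [Infinite κ] [FiniteDimensional κ A] {d : ℕ} (hd : finrank κ A = d) :
    ∃ e : Basis (Fin d) κ A, ∀ i j l, e.repr (e i * e j) l ≠ 0 := by
  classical
  let b : Basis (Fin d) κ A := Module.finBasisOfFinrankEq κ A hd
  have hF : ∀ i j l, F b i j l ≠ 0 := by
    intro i j l h0
    obtain ⟨e, he⟩ := exists_basis_ne hd i j l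
    have h1 := eval_F b e i j l
    rw [h0, map_zero] at h1
    have h2 : (b.toMatrix e).det ≠ 0 := by
      intro h
      have := congrArg Matrix.det (Basis.toMatrix_mul_toMatrix_flip b e)
      rw [Matrix.det_mul, h, zero_mul, Matrix.det_one] at this
      exact zero_ne_one this
    exact mul_ne_zero h2 he h1.symm
  have hdet : (Matrix.mvPolynomialX (Fin d) (Fin d) κ).det ≠ 0 := Matrix.det_mvPolynomialX_ne_zero _ _
  have hprod : (Matrix.mvPolynomialX (Fin d) (Fin d) κ).det *
      ∏ t : Fin d × Fin d × Fin d, F b t.1 t.2.1 t.2.2 ≠ 0 :=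
    mul_ne_zero hdet (Finset.prod_ne_zero_iff.2 fun t _ => hF _ _ _)
  obtain ⟨P, hP⟩ : ∃ P : Fin d × Fin d → κ, MvPolynomial.eval P
      ((Matrix.mvPolynomialX (Fin d) (Fin d) κ).det *
        ∏ t : Fin d × Fin d × Fin d, F b t.1 t.2.1 t.2.2) ≠ 0 := by
    by_contra hc
    push Not at hc
    exact hprod (MvPolynomial.funext fun x => by rw [hc x, map_zero])
  rw [map_mul, map_prod] at hP
  have hP1 := left_ne_zero_of_mul hP
  have hP2 := Finset.prod_ne_zero_iff.1 (right_ne_zero_of_mul hP)
  let M : Matrix (Fin d) (Fin d) κ := Matrix.of fun i j => P (i, j)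
  have hM : M.det ≠ 0 := by
    intro h
    apply hP1
    have := Matrix.mvPolynomialX_mapMatrix_eval M
    rw [RingHom.map_det, show P = fun p : Fin d × Fin d => M p.1 p.2 from rfl, this, h]
  let e : Basis (Fin d) κ A := b.map (Matrix.toLinearEquiv b M (IsUnit.mk0 _ hM))
  have he : b.toMatrix e = M := by
    ext i j
    simp [Basis.toMatrix_apply, e, Matrix.toLinearEquiv, Matrix.toLin_self, Finsupp.single_apply]
  refine ⟨e, fun i j l h => ?_⟩
  have h1 := eval_F b e i j l
  rw [h, mul_zero, he] at h1
  exact hP2 (i, j, l) (Finset.mem_univ _) h1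

end

end Pool.Agent.V1146.AD
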