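import Mathlib

/-!
# Approximation degree of a finite flat algebra over `k⟦t⟧`
-/

namespace Pool.Agent.V1146.AD

open scoped TensorProduct PowerSeries

/-- The number `ad(𝒜; e)` of a `k⟦t⟧`-basis `e` of `𝒜`: the supremum of the valuations of the
structure constants of `e` that are different from zero. -/
noncomputable def adBasis {k 𝒜 : Type} [Field k] [CommRing 𝒜] [Algebra k⟦X⟧ 𝒜] {d : ℕ}
    (e : Module.Basis (Fin d) k⟦X⟧ 𝒜) : ℕ∞ :=
  ⨆ (i : Fin d) (j : Fin d) (l : Fin d) (_ : e.repr (e i * e j) l ≠ 0),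
    (e.repr (e i * e j) l).order

/-- The approximation degree of `𝒜`, an algebra that is free of rank `d` over `k⟦t⟧`: the infimum
of `ad(𝒜; e)` over all `k⟦t⟧`-bases `e` (it is `⊤` if there is no basis with `d` elements). -/
noncomputable def approxDegree (k 𝒜 : Type) [Field k] [CommRing 𝒜] [Algebra k⟦X⟧ 𝒜] (d : ℕ) :
    ℕ∞ :=
  ⨅ e : Module.Basis (Fin d) k⟦X⟧ 𝒜, adBasis e

/-- The `k`-algebra `A` is isomorphic to the special fibre `𝒜 / t𝒜`. -/
def IsSpecialFibre (k 𝒜 A : Type) [Field k] [CommRing 𝒜] [Algebra k⟦X⟧ 𝒜] [CommRing A]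
    [Algebra k A] : Prop :=
  ∃ e : (𝒜 ⧸ Ideal.span {algebraMap k⟦X⟧ 𝒜 PowerSeries.X}) ≃+* A,
    ∀ x : k, e (Ideal.Quotient.mk _ (algebraMap k⟦X⟧ 𝒜 (PowerSeries.C x))) = algebraMap k A x

/-- `𝒜` is an abstract smoothing of `A`: a finite flat `k⟦t⟧`-algebra with geometrically reduced
generic fibre and with special fibre isomorphic to `A`. -/
def IsAbstractSmoothing (k 𝒜 A : Type) [Field k] [CommRing 𝒜] [Algebra k⟦X⟧ 𝒜] [CommRing A]
    [Algebra k A] : Prop :=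
  Module.Finite k⟦X⟧ 𝒜 ∧ Module.Flat k⟦X⟧ 𝒜 ∧
    Algebra.IsGeometricallyReduced (LaurentSeries k) (LaurentSeries k ⊗[k⟦X⟧] 𝒜) ∧
    IsSpecialFibre k 𝒜 A

/-- `𝒜` is completely split (of degree `d`): its generic fibre is isomorphic to the product of
`d` copies of `k((t))`. -/
def IsCompletelySplit (k 𝒜 : Type) [Field k] [CommRing 𝒜] [Algebra k⟦X⟧ 𝒜] (d : ℕ) : Prop :=
  Nonempty ((LaurentSeries k ⊗[k⟦X⟧] 𝒜) ≃ₐ[LaurentSeries k] (Fin d → LaurentSeries k))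

end Pool.Agent.V1146.AD
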