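import Pool.Agent.V1146.AD.Ring
import Pool.Agent.V1146.AD.Defs

/-!
# The approximation degree is zero
-/

namespace Pool.Agent.V1146.AD

open scoped TensorProduct PowerSeries
open Module IsLocalRing

variable {k : Type} [Field k]

/-- The residue field of `k⟦t⟧` is infinite if `k` is. -/
theorem infinite_residue [Infinite k] : Infinite (ResidueField k⟦X⟧) :=
  Infinite.of_injective ((residue k⟦X⟧).comp (PowerSeries.C (R := k)))
    (RingHom.injective _)

theorem approxDegree_eq_zero [Infinite k] {𝒜 : Type} [CommRing 𝒜] [Algebra k⟦X⟧ 𝒜]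
    [Module.Finite k⟦X⟧ 𝒜] [Module.Flat k⟦X⟧ 𝒜] {d : ℕ} (hd : finrank k⟦X⟧ 𝒜 = d) :
    ∃ e : Basis (Fin d) k⟦X⟧ 𝒜, (∀ i j l, IsUnit (e.repr (e i * e j) l)) ∧ adBasis e = 0 := by
  subst hd
  have := infinite_residue (k := k)
  obtain ⟨e, he⟩ := exists_basis_units (R := k⟦X⟧) (S := 𝒜)
  refine ⟨e, he, ?_⟩
  unfold adBasis
  simp only [ENat.iSup_eq_zero]
  intro i j l _
  exact PowerSeries.order_zero_of_unit (he i j l)

theorem finrank_eq {𝒜 A : Type} [CommRing 𝒜] [Algebra k⟦X⟧ 𝒜] [CommRing A] [Algebra k A]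
    [Module.Finite k⟦X⟧ 𝒜] [Module.Flat k⟦X⟧ 𝒜] (h : IsSpecialFibre k 𝒜 A) :
    finrank k⟦X⟧ 𝒜 = finrank k A := by
  have hfree : Module.Free k⟦X⟧ 𝒜 := Module.free_of_flat_of_isLocalRing
  obtain ⟨e, he⟩ := h
  let b := Module.finBasis k⟦X⟧ 𝒜
  let v : Fin (finrank k⟦X⟧ 𝒜) → A := fun i => e (Ideal.Quotient.mk _ (b i))
  have hli : LinearIndependent k v := by
    rw [Fintype.linearIndependent_iff]
    intro c hc i
    have h1 : e (Ideal.Quotient.mk _ (∑ i, PowerSeries.C (c i) • b i)) = 0 := by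
      rw [← hc, map_sum, map_sum]
      refine Finset.sum_congr rfl fun i _ => ?_
      rw [Algebra.smul_def, map_mul, map_mul, he, ← Algebra.smul_def]
    have h2 : (Ideal.Quotient.mk (Ideal.span {algebraMap k⟦X⟧ 𝒜 PowerSeries.X}))
        (∑ i, PowerSeries.C (c i) • b i) = 0 := (map_eq_zero_iff e e.injective).mp h1
    rw [Ideal.Quotient.eq_zero_iff_mem, Ideal.mem_span_singleton] at h2
    obtain ⟨y, hy⟩ := h2
    have h3 : b.repr (∑ i, PowerSeries.C (c i) • b i) i =
        b.repr (algebraMap k⟦X⟧ 𝒜 PowerSeries.X * y) i := by rw [hy]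
    rw [b.repr_sum_self, ← Algebra.smul_def, map_smul, Finsupp.smul_apply, smul_eq_mul] at h3
    have h4 := congrArg PowerSeries.constantCoeff h3
    simpa using h4
  have hspan : ⊤ ≤ Submodule.span k (Set.range v) := by
    rintro x -
    obtain ⟨x, rfl⟩ := e.surjective x
    obtain ⟨x, rfl⟩ := Ideal.Quotient.mk_surjective x
    rw [← b.sum_repr x, map_sum, map_sum]
    refine Submodule.sum_mem _ fun i _ => ?_
    obtain ⟨r, hr⟩ : ∃ r : k⟦X⟧, b.repr x i =
        PowerSeries.C (PowerSeries.constantCoeff (b.repr x i)) + PowerSeries.X * r := by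
      have h5 : PowerSeries.X ∣ b.repr x i -
          PowerSeries.C (PowerSeries.constantCoeff (b.repr x i)) := by
        rw [PowerSeries.X_dvd_iff]
        simp
      obtain ⟨r, hr⟩ := h5
      exact ⟨r, by rw [← hr]; ring⟩
    rw [hr, add_smul, map_add, map_add]
    have h0 : (Ideal.Quotient.mk (Ideal.span {algebraMap k⟦X⟧ 𝒜 PowerSeries.X}))
        ((PowerSeries.X * r) • b i) = 0 := by
      rw [Ideal.Quotient.eq_zero_iff_mem, mul_smul, Algebra.smul_def]
      exact Ideal.mul_mem_right _ _ (Ideal.mem_span_singleton_self _)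
    rw [h0, map_zero, add_zero, Algebra.smul_def, map_mul, map_mul, he, ← Algebra.smul_def]
    exact Submodule.smul_mem _ _ (Submodule.subset_span ⟨i, rfl⟩)
  have := Module.finrank_eq_card_basis (Basis.mk hli hspan)
  rw [Fintype.card_fin] at this
  exact this.symm

end Pool.Agent.V1146.AD
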