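import Pool.Agent.V1146.AD.Alg

/-!
# Algebras over a local ring with infinite residue field
-/

namespace Pool.Agent.V1146.AD

open Module TensorProduct IsLocalRing

/-- A finite flat algebra over a local ring with infinite residue field has a basis all of whose
structure constants are units. -/
theorem exists_basis_units {R : Type*} [CommRing R] [IsLocalRing R] [Infinite (ResidueField R)]
    {S : Type*} [CommRing S] [Algebra R S] [Module.Finite R S] [Module.Flat R S] :
    ∃ e : Basis (Fin (finrank R S)) R S, ∀ i j l, IsUnit (e.repr (e i * e j) l) := by
  classical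
  have hfree : Module.Free R S := Module.free_of_flat_of_isLocalRing
  have hd : finrank (ResidueField R) (ResidueField R ⊗[R] S) = finrank R S :=
    Module.finrank_baseChange
  obtain ⟨e0, he0⟩ := exists_basis_all (κ := ResidueField R) (A := ResidueField R ⊗[R] S) hd
  have hsurj : Function.Surjective (fun s : S => (1 : ResidueField R) ⊗ₜ[R] s) := by
    exact TensorProduct.mk_surjective R S (ResidueField R) residue_surjective
  choose v hv using fun i => hsurj (e0 i)
  have hv' : TensorProduct.mk R (ResidueField R) S 1 ∘ v = e0 := by
    funext i
    exact hv i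
  have hfp : Module.FinitePresentation R S := Module.finitePresentation_of_projective R S
  obtain ⟨e, he⟩ := Module.exists_basis_of_basis_baseChange (R := R) v
    (by rw [hv']; exact e0.linearIndependent) (by rw [hv']; exact e0.span_eq)
    (Module.Flat.rTensor_preserves_injective_linearMap _ Subtype.val_injective)
  refine ⟨e, fun i j l => ?_⟩
  by_contra hu
  apply he0 i j l
  have h1 : e0 i * e0 j = (1 : ResidueField R) ⊗ₜ[R] (e i * e j) := by
    rw [← hv i, ← hv j, Algebra.TensorProduct.tmul_mul_tmul, one_mul, he, he]
  have h2 : e0 = e.baseChange (ResidueField R) := by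
    apply Basis.eq_of_apply_eq
    intro i
    rw [Basis.baseChange_apply, he, ← hv i]
  rw [h1, h2, Basis.baseChange_repr_tmul]
  have h3 : residue R (e.repr (e i * e j) l) = 0 := by
    rw [residue_eq_zero_iff]
    exact (mem_maximalIdeal _).2 hu
  rw [← ResidueField.algebraMap_eq] at h3
  rw [Algebra.smul_def, h3, zero_mul]

end Pool.Agent.V1146.AD
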